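import Pool.Agent.Y892.DP.Stm2
import Pool.Agent.Y63.AWC.Z1
import Pool.Agent.Y63.KR.Surf

/-!
# DP-ZN: characters of defect zero of an extension by a cyclic group of order prime to `p`
-/

set_option autoImplicit false
set_option linter.unusedSectionVars false

open scoped Classical BigOperators
open Pool.Agent.Helper884.IC Pool.Agent.Y63.AWC Pool.Agent.Y63.KR Pool.Agent.Y892.DP

noncomputable section

namespace Pool.Agent.Y532.DP

/-- the sum of a character over all commutators -/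
lemma sum_comm_char {X : Type} [Group X] [Fintype X] {chi : X → ℂ} (h : IsIrrChar chi) :
    ∑ c : X × X, chi (c.1 * c.2 * c.1⁻¹ * c.2⁻¹) = (Nat.card X : ℂ) ^ 2 / chi 1 := by
  have h0 := one_ne h
  obtain ⟨V, _, _, _, rho, hr, rfl⟩ := h
  have h1 := congrArg (LinearMap.trace ℂ V) (comm_scalar rho hr)
  rw [map_sum, map_smul, LinearMap.trace_id, smul_eq_mul, ← rho.char_one] at h1
  have h2 : ∑ c : X × X, rho.character (c.1 * c.2 * c.1⁻¹ * c.2⁻¹) =
      ((Nat.card X : ℂ) / rho.character 1) ^ 2 * rho.character 1 := h1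
  rw [h2]
  field_simp

section

variable {X : Type} [Group X] [Fintype X] (M : Subgroup X) [hM : M.Normal] {p r : ℕ}
  [hp : Fact p.Prime]

lemma dz_iff (hr : Nat.card X = r * Nat.card M) (hpr : ¬ p ∣ r)
    {chi : X → ℂ} {psi : M → ℂ} (hc : IsIrrChar chi) (hs : IsIrrChar psi)
    (hm1 : mult M chi psi = 1) : DZ p chi ↔ DZ p psi := by
  obtain ⟨n, hn0, hn⟩ := deg_nat hc
  obtain ⟨d, hd0, hd⟩ := deg_nat hs
  have hdeg := deg_eq M hc hs (by rw [hm1]; exact one_ne_zero) hn hd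
  rw [hm1, mul_one] at hdeg
  have hO := card_Orb_mul M psi
  have hM0 : 0 < Nat.card M := Nat.card_pos
  obtain ⟨t, ht⟩ := Subgroup.card_dvd_of_le (le_St M hs.isClass)
  have hOr : (Orb M psi).card * t = r := by
    rw [ht, hr] at hO
    apply Nat.eq_of_mul_eq_mul_right hM0
    rw [← hO]
    ring
  have hpO : ¬ p ∣ (Orb M psi).card := fun h => hpr (h.trans ⟨t, hOr.symm⟩)
  have hr0 : r ≠ 0 := by
    rintro rfl
    exact hpr (dvd_zero p)
  have hO0 : (Orb M psi).card ≠ 0 := by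
    intro h0
    rw [h0, zero_mul] at hOr
    exact hr0 hOr.symm
  have hnf : n.factorization p = d.factorization p := by
    rw [hdeg, Nat.factorization_mul hO0 hd0.ne', Finsupp.add_apply,
      Nat.factorization_eq_zero_of_not_dvd hpO, zero_add]
  have hXf : (Nat.card X).factorization p = (Nat.card M).factorization p := by
    rw [hr, Nat.factorization_mul hr0 hM0.ne', Finsupp.add_apply,
      Nat.factorization_eq_zero_of_not_dvd hpr, zero_add]
  constructor
  · rintro ⟨n', hn', h⟩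
    have : n' = n := by
      rw [hn] at hn'
      exact_mod_cast hn'.symm
    subst this
    exact ⟨d, hd, by omega⟩
  · rintro ⟨d', hd', h⟩
    have : d' = d := by
      rw [hd] at hd'
      exact_mod_cast hd'.symm
    subst this
    exact ⟨n, hn, by omega⟩

lemma dz_cj {psi : M → ℂ} (x : X) : DZ p (cj M x psi) ↔ DZ p psi := by
  have h : cj M x psi 1 = psi 1 := by simp [cj]
  unfold DZ
  rw [h]

/-- the sum over the characters of defect zero -/
theorem key (hr : Nat.card X = r * Nat.card M) (hpr : ¬ p ∣ r)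
    (hm : ∀ (chi : X → ℂ) (psi : M → ℂ), IsIrrChar chi → IsIrrChar psi → mult M chi psi ≤ 1)
    (g : X) :
    ∑ chi ∈ (Irr X).filter (fun chi => DZ p chi), chi 1 * chi g =
      if h : g ∈ M then
        (r : ℂ) * ∑ psi ∈ (Irr M).filter (fun psi => DZ p psi), psi 1 * psi ⟨g, h⟩
      else 0 := by
  -- the induced characters
  have h1 : ∑ psi ∈ (Irr M).filter (fun psi => DZ p psi), psi 1 * ind M psi g =
      ∑ chi ∈ (Irr X).filter (fun chi => DZ p chi), chi 1 * chi g := by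
    have e1 : ∀ psi ∈ (Irr M).filter (fun psi => DZ p psi), psi 1 * ind M psi g =
        ∑ chi ∈ Irr X, psi 1 * ((mult M chi psi : ℂ) * chi g) := by
      intro psi hpsi
      rw [ind_eq M psi (mem_Irr.1 (Finset.mem_filter.1 hpsi).1), Finset.sum_apply, Finset.mul_sum]
      rfl
    rw [Finset.sum_congr rfl e1, Finset.sum_comm, Finset.sum_filter (fun chi => DZ p chi)]
    refine Finset.sum_congr rfl fun chi hchi => ?_
    have hc := mem_Irr.1 hchi
    have e2 : ∀ psi ∈ Irr M, mult M chi psi ≠ 0 → (DZ p chi ↔ DZ p psi) := by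
      intro psi hpsi h0
      have hs := mem_Irr.1 hpsi
      refine dz_iff M hr hpr hc hs ?_
      have := hm chi psi hc hs
      omega
    split_ifs with hdz
    · rw [Finset.sum_filter_of_ne]
      · have e3 := congrFun (res_eq M hc) 1
        rw [Finset.sum_apply] at e3
        have e4 : res M chi 1 = chi 1 := rfl
        rw [← e4, e3, Finset.sum_mul]
        refine Finset.sum_congr rfl fun psi _ => ?_
        rw [Pi.smul_apply, smul_eq_mul]
        ring
      · intro psi hpsi h0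
        refine (e2 psi hpsi ?_).1 hdz
        intro h
        apply h0
        rw [h]
        simp
    · apply Finset.sum_eq_zero
      intro psi hpsi
      obtain ⟨h3, h4⟩ := Finset.mem_filter.1 hpsi
      have h5 : mult M chi psi = 0 := by
        by_contra h0
        exact hdz ((e2 psi h3 h0).2 h4)
      rw [h5]
      simp
  rw [← h1]
  by_cases hg : g ∈ M
  · rw [dif_pos hg]
    have hM0 := cardG_ne (G := M)
    have e1 : ∀ psi ∈ (Irr M).filter (fun psi => DZ p psi), psi 1 * ind M psi g =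
        (Nat.card M : ℂ)⁻¹ * ∑ x : X, psi 1 * cj M x psi ⟨g, hg⟩ := by
      intro psi _
      unfold ind
      rw [dif_pos hg, ← Finset.mul_sum]
      ring
    rw [Finset.sum_congr rfl e1, ← Finset.mul_sum, Finset.sum_comm]
    have e2 : ∀ x : X, ∑ psi ∈ (Irr M).filter (fun psi => DZ p psi),
        psi 1 * cj M x psi ⟨g, hg⟩ =
        ∑ psi ∈ (Irr M).filter (fun psi => DZ p psi), psi 1 * psi ⟨g, hg⟩ := by
      intro x
      refine Finset.sum_nbij' (fun psi => cj M x psi) (fun psi => cj M x⁻¹ psi) ?_ ?_ ?_ ?_ ?_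
      · intro psi hpsi
        obtain ⟨h3, h4⟩ := Finset.mem_filter.1 hpsi
        exact Finset.mem_filter.2 ⟨mem_Irr.2 (cj_irr M x (mem_Irr.1 h3)), (dz_cj M x).2 h4⟩
      · intro psi hpsi
        obtain ⟨h3, h4⟩ := Finset.mem_filter.1 hpsi
        exact Finset.mem_filter.2 ⟨mem_Irr.2 (cj_irr M x⁻¹ (mem_Irr.1 h3)), (dz_cj M x⁻¹).2 h4⟩
      · intro psi _
        rw [← cj_mul, mul_inv_cancel, cj_one]
      · intro psi _
        rw [← cj_mul, inv_mul_cancel, cj_one]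
      · intro psi _
        have h : cj M x psi 1 = psi 1 := by simp [cj]
        rw [h]
    rw [Finset.sum_congr rfl fun x _ => e2 x, Finset.sum_const, Finset.card_univ, nsmul_eq_mul,
      ← Nat.card_eq_fintype_card, hr]
    push_cast
    field_simp
  · rw [dif_neg hg]
    refine Finset.sum_eq_zero fun psi _ => ?_
    unfold ind
    rw [dif_neg hg, mul_zero]

/-- the number of characters of defect zero and the commutators -/
theorem count (hr : Nat.card X = r * Nat.card M) (hpr : ¬ p ∣ r)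
    (hm : ∀ (chi : X → ℂ) (psi : M → ℂ), IsIrrChar chi → IsIrrChar psi → mult M chi psi ≤ 1) :
    (Nat.card X : ℂ) * (numDefectZero p X : ℂ) = ∑ c : X × X,
      if h : c.1 * c.2 * c.1⁻¹ * c.2⁻¹ ∈ M then
        (Nat.card M : ℂ)⁻¹ * ∑ psi ∈ (Irr M).filter (fun psi => DZ p psi), psi 1 * psi ⟨_, h⟩
      else 0 := by
  have hX0 := cardG_ne (G := X)
  have hM0 := cardG_ne (G := M)
  have hr' : (Nat.card X : ℂ) = r * Nat.card M := by
    rw [hr]
    push_cast
    rfl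
  have h1 : ∀ c : X × X, (if h : c.1 * c.2 * c.1⁻¹ * c.2⁻¹ ∈ M then
        (Nat.card M : ℂ)⁻¹ * ∑ psi ∈ (Irr M).filter (fun psi => DZ p psi), psi 1 * psi ⟨_, h⟩
      else 0) = (Nat.card X : ℂ)⁻¹ * ∑ chi ∈ (Irr X).filter (fun chi => DZ p chi),
        chi 1 * chi (c.1 * c.2 * c.1⁻¹ * c.2⁻¹) := by
    intro c
    rw [key M hr hpr hm]
    have hr0 : (r : ℂ) ≠ 0 := by
      intro h0
      rw [h0, zero_mul] at hr'
      exact hX0 hr'
    split_ifs with h
    · rw [hr', ← mul_assoc]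
      congr 1
      field_simp
    · rw [mul_zero]
  rw [Finset.sum_congr rfl fun c _ => h1 c, ← Finset.mul_sum, Finset.sum_comm]
  have h2 : ∀ chi ∈ (Irr X).filter (fun chi => DZ p chi),
      ∑ c : X × X, chi 1 * chi (c.1 * c.2 * c.1⁻¹ * c.2⁻¹) = (Nat.card X : ℂ) ^ 2 := by
    intro chi hchi
    have hc := mem_Irr.1 (Finset.mem_filter.1 hchi).1
    rw [← Finset.mul_sum, sum_comm_char hc]
    have := one_ne hc
    field_simp
  rw [Finset.sum_congr rfl h2, Finset.sum_const, nsmul_eq_mul, ← numDefectZero_eq]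
  field_simp

end

/-- transport along isomorphisms -/
lemma dzs_congr {p : ℕ} {N₁ N₂ : Type} [Group N₁] [Group N₂] [Fintype N₁] [Fintype N₂]
    (e : N₁ ≃* N₂) (g : N₁) :
    ∑ psi ∈ (Irr N₁).filter (fun psi => DZ p psi), psi 1 * psi g =
      ∑ psi ∈ (Irr N₂).filter (fun psi => DZ p psi), psi 1 * psi (e g) := by
  have hcard : Nat.card N₁ = Nat.card N₂ := Nat.card_congr e.toEquiv
  refine Finset.sum_nbij' (fun psi => fun x => psi (e.symm x)) (fun psi => fun x => psi (e x))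
    ?_ ?_ ?_ ?_ ?_
  · intro psi hpsi
    obtain ⟨h3, h4⟩ := Finset.mem_filter.1 hpsi
    refine Finset.mem_filter.2 ⟨mem_Irr.2 (irr_comp e.symm (mem_Irr.1 h3)), ?_⟩
    unfold DZ at h4 ⊢
    change ∃ n : ℕ, psi (e.symm 1) = (n : ℂ) ∧ _
    rw [map_one, ← hcard]
    exact h4
  · intro psi hpsi
    obtain ⟨h3, h4⟩ := Finset.mem_filter.1 hpsi
    refine Finset.mem_filter.2 ⟨mem_Irr.2 (irr_comp e (mem_Irr.1 h3)), ?_⟩
    unfold DZ at h4 ⊢
    change ∃ n : ℕ, psi (e 1) = (n : ℂ) ∧ _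
    rw [map_one, hcard]
    exact h4
  · intro psi _
    funext x
    simp
  · intro psi _
    funext x
    simp
  · intro psi _
    simp

/-- `dz` as a finite sum -/
lemma dz_eq (p : ℕ) {G : Type} [Group G] [Finite G] (N : Subgroup G) [Fintype N] (g : G)
    (h : g ∈ N) : dz p N g = (Nat.card N : ℂ)⁻¹ *
      ∑ psi ∈ (Irr N).filter (fun psi => DZ p psi), psi 1 * psi ⟨g, h⟩ := by
  unfold dz
  rw [dif_pos h]
  congr 1
  have h1 := finsum_subtype_eq_finsum_cond (f := fun psi : N → ℂ => psi 1 * psi ⟨g, h⟩)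
    (fun psi => IsIrreducibleCharacter psi ∧
      ∃ n : ℕ, psi 1 = (n : ℂ) ∧ n.factorization p = (Nat.card N).factorization p)
  refine h1.trans ?_
  refine finsum_cond_eq_sum_of_cond_iff _ fun {psi} _ => ?_
  rw [Finset.mem_filter, mem_Irr]
  rfl

section coset

variable {G : Type} [Group G] [Finite G] (N : Subgroup G) (e : G) (m d : ℕ)

/-- the products of powers of `a` and elements of `N` -/
def PN (a : G) (ha : a ∈ Subgroup.normalizer (N : Set G)) : Subgroup G where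
  carrier := {x | ∃ k : ℤ, (a ^ k)⁻¹ * x ∈ N}
  one_mem' := ⟨0, by simpa using N.one_mem⟩
  mul_mem' := by
    rintro x y ⟨k, hk⟩ ⟨l, hl⟩
    refine ⟨k + l, ?_⟩
    have h1 : a ^ l ∈ Subgroup.normalizer (N : Set G) := Subgroup.zpow_mem _ ha l
    have h2 : (a ^ l)⁻¹ * ((a ^ k)⁻¹ * x) * ((a ^ l)⁻¹)⁻¹ ∈ N :=
      (Subgroup.mem_normalizer_iff.1 (Subgroup.inv_mem _ h1) _).1 hk
    have h3 := N.mul_mem h2 hl
    have h4 : (a ^ (k + l))⁻¹ * (x * y) =
        (a ^ l)⁻¹ * ((a ^ k)⁻¹ * x) * ((a ^ l)⁻¹)⁻¹ * ((a ^ l)⁻¹ * y) := by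
      rw [zpow_add]
      group
    rw [h4]
    exact h3
  inv_mem' := by
    rintro x ⟨k, hk⟩
    refine ⟨-k, ?_⟩
    have h1 : a ^ k ∈ Subgroup.normalizer (N : Set G) := Subgroup.zpow_mem _ ha k
    have h2 := (Subgroup.mem_normalizer_iff.1 h1 _).1 (N.inv_mem hk)
    have h4 : (a ^ (-k))⁻¹ * x⁻¹ = a ^ k * ((a ^ k)⁻¹ * x)⁻¹ * (a ^ k)⁻¹ := by
      group
    rw [h4]
    exact h2

/-- the elements of the extension -/
lemma mem_ext (hN : conjSub e N = N) (hm : 0 < m) (hk : ∀ k : ℕ, e ^ k ∈ N ↔ m ∣ k) (hd : d ∣ m)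
    (x : G) : x ∈ N ⊔ Subgroup.zpowers (e ^ d) ↔ ∃ i < m / d, (e ^ (d * i))⁻¹ * x ∈ N := by
  have he : e ∈ Subgroup.normalizer (N : Set G) := conjSub_eq_iff.1 hN
  have he' : e ^ d ∈ Subgroup.normalizer (N : Set G) := Subgroup.pow_mem _ he d
  obtain ⟨c, hc⟩ := hd
  have hd0 : 0 < d := Nat.pos_of_ne_zero (by rintro rfl; omega)
  have hc0 : 0 < c := Nat.pos_of_ne_zero (by rintro rfl; omega)
  have hmd : m / d = c := by rw [hc, Nat.mul_div_cancel_left _ hd0]
  rw [hmd]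
  constructor
  · intro hx
    have hle : N ⊔ Subgroup.zpowers (e ^ d) ≤ PN N (e ^ d) he' := by
      refine sup_le (fun y hy => ⟨0, by simpa using hy⟩) ?_
      rw [Subgroup.zpowers_le]
      exact ⟨1, by simpa using N.one_mem⟩
    obtain ⟨k, hkx⟩ := hle hx
    have hcz : (c : ℤ) ≠ 0 := by exact_mod_cast hc0.ne'
    refine ⟨(k % c).toNat, ?_, ?_⟩
    · have h1 := Int.emod_lt_of_pos k (by exact_mod_cast hc0 : (0 : ℤ) < c)
      have h2 := Int.emod_nonneg k hcz
      omega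
    · have h2 := Int.emod_nonneg k hcz
      have h3 : e ^ (d * (k % c).toNat) = (e ^ d) ^ (k % (c : ℤ)) := by
        rw [pow_mul, ← zpow_natCast (e ^ d), Int.toNat_of_nonneg h2]
      have h4 : (e ^ d) ^ c ∈ N := by
        rw [← pow_mul, ← hc]
        exact (hk m).2 dvd_rfl
      have h5 : ((e ^ d) ^ (k % (c : ℤ)))⁻¹ * x =
          ((e ^ d) ^ c) ^ (k / (c : ℤ)) * (((e ^ d) ^ k)⁻¹ * x) := by
        rw [← mul_assoc]
        congr 1
        rw [← zpow_natCast (e ^ d) c, ← zpow_mul, ← zpow_neg, ← zpow_neg, ← zpow_add]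
        congr 1
        have := Int.emod_add_mul_ediv k c
        linarith
      rw [h3, h5]
      exact N.mul_mem (N.zpow_mem h4 _) hkx
  · rintro ⟨i, -, hi⟩
    have h1 : x = (e ^ d) ^ i * ((e ^ (d * i))⁻¹ * x) := by
      rw [← pow_mul]
      group
    rw [h1]
    exact mul_mem (Subgroup.pow_mem _ (le_sup_right (a := N) (Subgroup.mem_zpowers (e ^ d))) i)
      (le_sup_left (a := N) hi)

/-- the cosets are disjoint -/
lemma unique_ext (hk : ∀ k : ℕ, e ^ k ∈ N ↔ m ∣ k) (hm : 0 < m) (hd : d ∣ m)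
    (x : G) {i j : ℕ} (hi : i < m / d) (hj : j < m / d) (h1 : (e ^ (d * i))⁻¹ * x ∈ N)
    (h2 : (e ^ (d * j))⁻¹ * x ∈ N) : i = j := by
  obtain ⟨c, hc⟩ := hd
  have hd0 : 0 < d := Nat.pos_of_ne_zero (by rintro rfl; omega)
  have hmd : m / d = c := by rw [hc, Nat.mul_div_cancel_left _ hd0]
  rw [hmd] at hi hj
  wlog hij : i ≤ j generalizing i j
  · exact (this h2 h1 hi hj (by omega)).symm
  have h3 : e ^ (d * j - d * i) ∈ N := by
    have h4 := N.mul_mem h1 (N.inv_mem h2)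
    have h5 : (e ^ (d * i))⁻¹ * x * ((e ^ (d * j))⁻¹ * x)⁻¹ = e ^ (d * j - d * i) := by
      rw [pow_sub e (Nat.mul_le_mul_left d hij)]
      have h6 : e ^ (d * j) * (e ^ (d * i))⁻¹ = (e ^ (d * i))⁻¹ * e ^ (d * j) := by
        rw [eq_inv_mul_iff_mul_eq, ← mul_assoc, mul_inv_eq_iff_eq_mul, ← pow_add, ← pow_add,
          add_comm]
      rw [h6]
      group
    rwa [h5] at h4
  rw [hk, ← Nat.mul_sub, hc] at h3
  have h4 : c ∣ j - i := (Nat.mul_dvd_mul_iff_left hd0).1 h3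
  have h5 := Nat.eq_zero_of_dvd_of_lt h4 (by omega)
  omega

/-- the indicator function of the extension -/
lemma ind_ext (hN : conjSub e N = N) (hm : 0 < m) (hk : ∀ k : ℕ, e ^ k ∈ N ↔ m ∣ k) (hd : d ∣ m)
    (x : G) : ∑ i ∈ Finset.range (m / d), (if (e ^ (d * i))⁻¹ * x ∈ N then (1 : ℂ) else 0) =
      if x ∈ N ⊔ Subgroup.zpowers (e ^ d) then 1 else 0 := by
  split_ifs with hx
  · obtain ⟨i, hi, hix⟩ := (mem_ext N e m d hN hm hk hd x).1 hx
    rw [Finset.sum_eq_single i, if_pos hix]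
    · intro j hj hne
      rw [if_neg]
      intro hjx
      exact hne (unique_ext N e m d hk hm hd x (Finset.mem_range.1 hj) hi hjx hix)
    · intro h
      exact absurd (Finset.mem_range.2 hi) h
  · refine Finset.sum_eq_zero fun i hi => if_neg fun h => hx ?_
    exact (mem_ext N e m d hN hm hk hd x).2 ⟨i, Finset.mem_range.1 hi, h⟩

/-- the pairs of cosets -/
lemma pairSum_eq [Fintype G] (Φ : G → G → ℂ) (i j : ℕ) : pairSum N ⊤ e Φ i j =
    ∑ q : G × G, (if (e ^ i)⁻¹ * q.1 ∈ N then (1 : ℂ) else 0) *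
      (if (e ^ j)⁻¹ * q.2 ∈ N then (1 : ℂ) else 0) * Φ q.1 q.2 := by
  unfold pairSum
  have h1 := finsum_subtype_eq_finsum_cond (f := fun q : G × G => Φ q.1 q.2)
    (fun q : G × G => (e ^ i)⁻¹ * q.1 ∈ N ∧ (e ^ j)⁻¹ * q.2 ∈ N ∧
      q.1 ∈ (⊤ : Subgroup G) ∧ q.2 ∈ (⊤ : Subgroup G))
  refine h1.trans ?_
  have h2 := finsum_cond_eq_sum_of_cond_iff (fun q : G × G => Φ q.1 q.2)
    (p := fun q : G × G => (e ^ i)⁻¹ * q.1 ∈ N ∧ (e ^ j)⁻¹ * q.2 ∈ N ∧
      q.1 ∈ (⊤ : Subgroup G) ∧ q.2 ∈ (⊤ : Subgroup G))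
    (t := Finset.univ.filter fun q : G × G => (e ^ i)⁻¹ * q.1 ∈ N ∧ (e ^ j)⁻¹ * q.2 ∈ N)
    (fun {q} _ => by simp)
  refine h2.trans ?_
  rw [Finset.sum_filter]
  refine Finset.sum_congr rfl fun q _ => ?_
  by_cases h3 : (e ^ i)⁻¹ * q.1 ∈ N
  · by_cases h4 : (e ^ j)⁻¹ * q.2 ∈ N
    · rw [if_pos ⟨h3, h4⟩, if_pos h3, if_pos h4, one_mul, one_mul]
    · rw [if_neg fun h => h4 h.2, if_neg h4, mul_zero, zero_mul]
  · rw [if_neg fun h => h3 h.1, if_neg h3, zero_mul, zero_mul]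

lemma sum_ind [Fintype G] (H : Subgroup G) : ∑ x : G, (if x ∈ H then (1 : ℂ) else 0) = Nat.card H := by
  rw [Finset.sum_boole, Nat.card_eq_fintype_card, Fintype.card_subtype]

lemma sum_ind_coset [Fintype G] (a : G) :
    ∑ x : G, (if a⁻¹ * x ∈ N then (1 : ℂ) else 0) = Nat.card N := by
  rw [← sum_ind]
  exact Fintype.sum_equiv (Equiv.mulLeft a⁻¹) _ _ fun x => rfl

/-- the order of the extension -/
lemma card_ext (hN : conjSub e N = N) (hm : 0 < m) (hk : ∀ k : ℕ, e ^ k ∈ N ↔ m ∣ k)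
    (hd : d ∣ m) :
    Nat.card ↥(N ⊔ Subgroup.zpowers (e ^ d)) = (m / d) * Nat.card N := by
  have : Fintype G := Fintype.ofFinite G
  have h1 := sum_ind (N ⊔ Subgroup.zpowers (e ^ d))
  simp_rw [← ind_ext N e m d hN hm hk hd] at h1
  rw [Finset.sum_comm, Finset.sum_congr rfl fun i _ => sum_ind_coset N (e ^ (d * i)),
    Finset.sum_const, Finset.card_range, nsmul_eq_mul] at h1
  exact_mod_cast h1.symm

end coset

/-- **Characters of defect zero of an extension by a cyclic group of order prime to `p`.** -/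
theorem zn : S_MUL → S_ZN := by
  intro hmul p hp G _ _ N e m d hN hm hk hpm hd
  have hFG : Fintype G := Fintype.ofFinite G
  have hcard := card_ext N e m d hN hm hk hd
  have hind := ind_ext N e m d hN hm hk hd
  have hmem := mem_ext N e m d hN hm hk hd
  have he : e ∈ Subgroup.normalizer (N : Set G) := conjSub_eq_iff.1 hN
  have hNH : N ≤ N ⊔ Subgroup.zpowers (e ^ d) := le_sup_left
  have heH : e ^ d ∈ N ⊔ Subgroup.zpowers (e ^ d) :=
    le_sup_right (a := N) (Subgroup.mem_zpowers (e ^ d))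
  have hHn : N ⊔ Subgroup.zpowers (e ^ d) ≤ Subgroup.normalizer (N : Set G) :=
    sup_le Subgroup.le_normalizer ((Subgroup.zpowers_le).2 (Subgroup.pow_mem _ he d))
  generalize N ⊔ Subgroup.zpowers (e ^ d) = H at *
  have hFH : Fintype H := Fintype.ofFinite H
  have hnorm : (N.subgroupOf H).Normal := (Subgroup.normal_subgroupOf_iff_le_normalizer hNH).2 hHn
  have hcM : Nat.card (N.subgroupOf H) = Nat.card N :=
    Nat.card_congr (Subgroup.subgroupOfEquivOfLe hNH).toEquiv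
  have hpr : ¬ p ∣ m / d := fun h => hpm (h.trans (Nat.div_dvd_of_dvd hd))
  have htop : N.subgroupOf H ⊔ Subgroup.zpowers (⟨e ^ d, heH⟩ : H) = ⊤ := by
    rw [eq_top_iff]
    rintro x -
    obtain ⟨i, -, hi⟩ := (hmem x).1 x.2
    have h1 : x = (⟨e ^ d, heH⟩ : H) ^ i * ((⟨e ^ d, heH⟩ : H) ^ i)⁻¹ * x := by group
    have h2 : ((⟨e ^ d, heH⟩ : H) ^ i)⁻¹ * x ∈ N.subgroupOf H := by
      rw [Subgroup.mem_subgroupOf]
      have h3 : ((((⟨e ^ d, heH⟩ : H) ^ i)⁻¹ * x : H) : G) = (e ^ (d * i))⁻¹ * x := by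
        rw [pow_mul]
        rfl
      rw [h3]
      exact hi
    rw [h1, mul_assoc]
    exact mul_mem (Subgroup.pow_mem _ (le_sup_right (a := N.subgroupOf H)
      (Subgroup.mem_zpowers _)) i) (le_sup_left (a := N.subgroupOf H) h2)
  have hcount := count (p := p) (N.subgroupOf H) (r := m / d) (by rw [hcM, hcard]) hpr
    (fun chi psi h1 h2 => hmul H (N.subgroupOf H) ⟨e ^ d, heH⟩ chi psi htop h1 h2)
  rw [hcount]
  have hFN : Fintype N := Fintype.ofFinite N
  -- the terms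
  have hterm : ∀ c : H × H, (if h : c.1 * c.2 * c.1⁻¹ * c.2⁻¹ ∈ N.subgroupOf H then
        (Nat.card (N.subgroupOf H) : ℂ)⁻¹ *
          ∑ psi ∈ (Irr (N.subgroupOf H)).filter (fun psi => DZ p psi), psi 1 * psi ⟨_, h⟩
      else 0) = dz p N ((c.1 : G) * c.2 * (c.1 : G)⁻¹ * (c.2 : G)⁻¹) := by
    intro c
    split_ifs with h
    · have h' : (c.1 : G) * c.2 * (c.1 : G)⁻¹ * (c.2 : G)⁻¹ ∈ N := Subgroup.mem_subgroupOf.1 h
      rw [dz_eq p N _ h', hcM, dzs_congr (Subgroup.subgroupOfEquivOfLe hNH)]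
      rfl
    · have h' : (c.1 : G) * c.2 * (c.1 : G)⁻¹ * (c.2 : G)⁻¹ ∉ N := fun h' =>
        h (Subgroup.mem_subgroupOf.2 h')
      unfold dz
      rw [dif_neg h']
  rw [Finset.sum_congr rfl fun c _ => hterm c]
  simp_rw [pairSum_eq]
  -- exchange of the sums
  have h1 : ∑ i ∈ Finset.range (m / d), ∑ j ∈ Finset.range (m / d), ∑ q : G × G,
      (if (e ^ (d * i))⁻¹ * q.1 ∈ N then (1 : ℂ) else 0) *
      (if (e ^ (d * j))⁻¹ * q.2 ∈ N then (1 : ℂ) else 0) *
        dz p N (q.1 * q.2 * q.1⁻¹ * q.2⁻¹) =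
      ∑ q : G × G, (if q.1 ∈ H then (1 : ℂ) else 0) * (if q.2 ∈ H then (1 : ℂ) else 0) *
        dz p N (q.1 * q.2 * q.1⁻¹ * q.2⁻¹) := by
    simp_rw [← hind]
    rw [Finset.sum_congr rfl fun i _ => Finset.sum_comm, Finset.sum_comm]
    refine Finset.sum_congr rfl fun q _ => ?_
    rw [Finset.sum_mul_sum, Finset.sum_mul]
    refine Finset.sum_congr rfl fun i _ => ?_
    rw [Finset.sum_mul]
  rw [h1]
  have h2 : ∑ q : G × G, (if q.1 ∈ H then (1 : ℂ) else 0) * (if q.2 ∈ H then (1 : ℂ) else 0) *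
        dz p N (q.1 * q.2 * q.1⁻¹ * q.2⁻¹) =
      ∑ q ∈ Finset.univ.filter (fun q : G × G => q.1 ∈ H ∧ q.2 ∈ H),
        dz p N (q.1 * q.2 * q.1⁻¹ * q.2⁻¹) := by
    rw [Finset.sum_filter]
    refine Finset.sum_congr rfl fun q _ => ?_
    by_cases h3 : q.1 ∈ H
    · by_cases h4 : q.2 ∈ H
      · rw [if_pos h3, if_pos h4, if_pos ⟨h3, h4⟩, one_mul, one_mul]
      · rw [if_pos h3, if_neg h4, mul_zero, zero_mul,
          if_neg (fun h : q.1 ∈ H ∧ q.2 ∈ H => h4 h.2)]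
    · rw [if_neg h3, zero_mul, zero_mul, if_neg (fun h : q.1 ∈ H ∧ q.2 ∈ H => h3 h.1)]
  rw [h2]
  refine Finset.sum_bij (fun (c : H × H) _ => ((c.1 : G), (c.2 : G))) ?_ ?_ ?_ ?_
  · intro c _
    exact Finset.mem_filter.2 ⟨Finset.mem_univ _, c.1.2, c.2.2⟩
  · intro c _ c' _ h
    have h3 := (Prod.mk.injEq _ _ _ _ ▸ h : (c.1 : G) = c'.1 ∧ (c.2 : G) = c'.2)
    exact Prod.ext (Subtype.ext h3.1) (Subtype.ext h3.2)
  · intro q hq
    obtain ⟨-, h3, h4⟩ := Finset.mem_filter.1 hq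
    exact ⟨(⟨q.1, h3⟩, ⟨q.2, h4⟩), Finset.mem_univ _, rfl⟩
  · intro c _
    rfl

end Pool.Agent.Y532.DP
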